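import Mathlib

/-! A regular CIS graph, connected, well-covered and irreducible together with its complement,
that is not vertex-transitive. -/

namespace Pool.Agent.Results.MP_509871_co.NotTransitive

open SimpleGraph

variable {A B : Type}

def CIS (G : SimpleGraph A) : Prop :=
  ∀ C S : Set A, Maximal G.IsClique C → Maximal G.IsIndepSet S → (C ∩ S).Nonempty

def WellCovered (G : SimpleGraph A) : Prop :=
  ∃ a, ∀ S : Set A, Maximal G.IsIndepSet S → S.ncard = a

def Irred (G : SimpleGraph A) : Prop := ∀ u v, G.neighborSet u = G.neighborSet v → u = v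

def lex (G : SimpleGraph A) (H : SimpleGraph B) : SimpleGraph (A × B) where
  Adj p q := G.Adj p.1 q.1 ∨ p.1 = q.1 ∧ H.Adj p.2 q.2
  symm := ⟨fun _ _ h => h.imp Adj.symm fun h => ⟨h.1.symm, h.2.symm⟩⟩
  loopless := ⟨fun _ h => by simp at h⟩

instance (G : SimpleGraph A) (H : SimpleGraph B) [DecidableEq A] [DecidableRel G.Adj]
    [DecidableRel H.Adj] : DecidableRel (lex G H).Adj := fun _ _ => by unfold lex; infer_instance

lemma lex_compl (G : SimpleGraph A) (H : SimpleGraph B) : (lex G H)ᶜ = lex Gᶜ Hᶜ := by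
  ext ⟨a, b⟩ ⟨c, d⟩
  have := G.ne_of_adj (a := a) (b := c)
  simp only [lex, compl_adj, ne_eq, Prod.mk.injEq]
  grind

lemma max_iff (G : SimpleGraph A) (C : Set A) : Maximal G.IsClique C ↔
    (∀ u ∈ C, ∀ v ∈ C, u ≠ v → G.Adj u v) ∧ ∀ v, (∀ u ∈ C, G.Adj u v) → v ∈ C := by
  constructor
  · exact fun h => ⟨h.1, fun v hv => h.2 (y := insert v C)
      (h.1.insert fun u hu _ => (hv u hu).symm) (Set.subset_insert _ _) (Set.mem_insert _ _)⟩
  · refine fun h => ⟨h.1, fun D hD hCD v hv => ?_⟩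
    by_contra hc
    exact hc (h.2 v fun u hu => hD (hCD hu) hv (by rintro rfl; exact hc hu))

lemma proj [Nonempty B] {G : SimpleGraph A} {H : SimpleGraph B} {C : Set (A × B)}
    (h : Maximal (lex G H).IsClique C) : Maximal G.IsClique (Prod.fst '' C) ∧
      ∀ a ∈ Prod.fst '' C, Maximal H.IsClique {b | (a, b) ∈ C} := by
  simp only [max_iff] at h ⊢
  obtain ⟨h1, h2⟩ := h
  refine ⟨⟨?_, fun v hv => ⟨(v, Classical.arbitrary B), h2 _ fun u hu =>
    Or.inl (hv _ ⟨u, hu, rfl⟩), rfl⟩⟩, ?_⟩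
  · rintro _ ⟨p, hp, rfl⟩ _ ⟨q, hq, rfl⟩ e
    exact (h1 p hp q hq fun e' => e (by rw [e'])).resolve_right fun h => e h.1
  · rintro _ ⟨p, hp, rfl⟩
    refine ⟨fun u hu v hv e => ((h1 _ hu _ hv (by simpa using e)).resolve_left G.irrefl).2,
      fun v hv => h2 _ fun q hq => ?_⟩
    by_cases e : q.1 = p.1
    · exact Or.inr ⟨e, hv _ (by rw [← e]; exact hq)⟩
    · exact Or.inl ((h1 q hq p hp fun e' => e (by rw [e'])).resolve_right fun h => e h.1)

def Om (G : SimpleGraph A) (w : ℕ) : Prop := ∀ C : Set A, Maximal G.IsClique C → C.ncard = w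

def Ci (G : SimpleGraph A) : Prop :=
  ∀ C S : Set A, Maximal G.IsClique C → Maximal Gᶜ.IsClique S → (C ∩ S).Nonempty

lemma om_lex [Nonempty B] [Finite A] [Finite B] {G : SimpleGraph A} {H : SimpleGraph B} {w w' : ℕ}
    (h : Om G w) (h' : Om H w') : Om (lex G H) (w * w') := by
  classical
  intro C hC
  obtain ⟨h1, h2⟩ := proj hC
  obtain ⟨C, rfl⟩ := (Set.toFinite C).exists_finset_coe
  rw [Set.ncard_coe_finset, Finset.card_eq_sum_card_image Prod.fst, ← h _ h1, ← Finset.coe_image,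
    Set.ncard_coe_finset, ← smul_eq_mul, ← Finset.sum_const]
  refine Finset.sum_congr rfl fun a ha => ?_
  rw [← h' _ (h2 a (by simpa using ha)), ← Set.ncard_image_of_injective _ (Prod.mk_right_injective a),
    ← Set.ncard_coe_finset]
  refine congrArg _ ?_
  ext ⟨x, y⟩
  simp only [Finset.coe_filter, Set.mem_setOf_eq, Set.mem_image, Finset.mem_coe, Prod.mk.injEq]
  grind

lemma ci_lex [Nonempty B] {G : SimpleGraph A} {H : SimpleGraph B} (h : Ci G) (h' : Ci H) :
    Ci (lex G H) := by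
  intro C S hC hS
  rw [lex_compl] at hS
  obtain ⟨a, h1, h2⟩ := h _ _ (proj hC).1 (proj hS).1
  obtain ⟨b, h3⟩ := h' _ _ ((proj hC).2 a h1) ((proj hS).2 a h2)
  exact ⟨(a, b), h3⟩

def Ir (G : SimpleGraph A) : Prop := Irred G ∧ ∀ u, ∃ v, G.Adj u v

lemma ir_lex (G : SimpleGraph A) {H : SimpleGraph B} (h : Ir H) : Ir (lex G H) := by
  refine ⟨fun ⟨a, b⟩ ⟨c, d⟩ e => ?_, fun ⟨a, b⟩ => (h.2 b).elim fun v hv => ⟨(a, v), Or.inr ⟨rfl, hv⟩⟩⟩
  rw [Set.ext_iff] at e
  by_cases hac : a = c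
  · subst hac
    rw [h.1 b d (Set.ext fun x => by simpa [lex] using e (a, x))]
  · obtain ⟨v, hv⟩ := h.2 b
    have := ((e (a, v)).1 (Or.inr ⟨rfl, hv⟩)).resolve_right fun h => hac h.1.symm
    exact absurd ((e (c, d)).1 (Or.inl this.symm)) (lex G H).irrefl

lemma conn [Nonempty A] [Nonempty B] {G : SimpleGraph A} (H : SimpleGraph B)
    (h : ∀ a b, ∃ c, G.Adj a c ∧ G.Adj c b) : (lex G H).Connected :=
  ⟨fun p q => (h p.1 q.1).elim fun c hc => (Adj.reachable (v := (c, p.2)) (Or.inl hc.1)).trans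
    (Adj.reachable (Or.inl hc.2))⟩

lemma reg [Finite A] [Finite B] {G : SimpleGraph A} {H : SimpleGraph B} {d e : ℕ}
    (h : ∀ v, (G.neighborSet v).ncard = d) (h' : ∀ v, (H.neighborSet v).ncard = e) (v : A × B) :
    ((lex G H).neighborSet v).ncard = d * Nat.card B + e := by
  rw [show (lex G H).neighborSet v = G.neighborSet v.1 ×ˢ Set.univ ∪ {v.1} ×ˢ H.neighborSet v.2 by
    ext x; simp [lex, eq_comm], Set.ncard_union_eq (by simp [Set.disjoint_prod])]
  simp [Set.ncard_prod, h, h']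

def R : SimpleGraph (Fin 9) := fromRel fun a b => a.1 / 3 = b.1 / 3 ∨ a.1 % 3 = b.1 % 3

def Y : SimpleGraph (Fin 15) := fromRel fun a b => (9 ≤ a.1 ∧ 9 ≤ b.1 ∧ a.1 % 3 ≠ b.1 % 3) ∨
  (a.1 < 9 ∧ b.1 < 9 ∧ (a.1 / 3 = b.1 / 3 ∨ a.1 % 3 = b.1 % 3))

instance : DecidableRel R.Adj := fun _ _ => by unfold R; infer_instance

instance : DecidableRel Y.Adj := fun _ _ => by unfold Y; infer_instance

def cl {n : ℕ} (g : Fin n → Fin n → Bool) : List (Fin n) → List (List (Fin n))
  | [] => [[]]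
  | a :: l => (cl g l).flatMap fun C => if C.all (g · a) then [C, a :: C] else [C]

def mx {n : ℕ} (g : Fin n → Fin n → Bool) : List (List (Fin n)) :=
  (cl g (List.finRange n)).filter fun C => (List.finRange n).all fun v => !C.all (g · v)

lemma mem_mx {n : ℕ} (G : SimpleGraph (Fin n)) [DecidableRel G.Adj] {C : Set (Fin n)}
    (h : Maximal G.IsClique C) : ∃ D ∈ mx fun a b => decide (G.Adj a b),
      C = D.toFinset ∧ C.ncard = D.length := by
  classical
  rw [max_iff] at h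
  have : ∀ l : List (Fin n), l.Nodup → l.filter (· ∈ C) ∈ cl (fun a b => decide (G.Adj a b)) l := by
    intro l hl
    induction l with
    | nil => simp [cl]
    | cons a l ih =>
      rw [List.nodup_cons] at hl
      refine List.mem_flatMap.2 ⟨_, ih hl.2, ?_⟩
      by_cases ha : a ∈ C
      · rw [if_pos (by simpa [or_iff_not_imp_left] using fun u hu hc => h.1 u hc a ha fun e => hl.1 (e ▸ hu))]
        simp [ha]
      · split_ifs <;> simp [ha]
  have e : C = ((List.finRange n).filter (· ∈ C)).toFinset := by ext; simp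
  refine ⟨_, List.mem_filter.2 ⟨this _ (List.nodup_finRange n), ?_⟩, e, ?_⟩
  · simp only [List.all_eq_true, Bool.not_eq_true', List.all_eq_false]
    intro v _
    by_contra hc
    have : ∀ u ∈ C, G.Adj u v := by simpa using hc
    exact G.irrefl (this v (h.2 v this))
  · conv_lhs => rw [e]
    rw [Set.ncard_coe_finset, List.toFinset_card_of_nodup ((List.nodup_finRange n).filter _)]

def chk {n : ℕ} (a w : ℕ) (P Q : List (List (Fin n))) : Bool :=
  P.all (·.length == w) && Q.all (·.length == a) && P.all fun C => Q.all fun S => C.any S.contains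

lemma base {n : ℕ} (G : SimpleGraph (Fin n)) [DecidableRel G.Adj] (a w : ℕ)
    (h : chk a w (mx fun a b => decide (G.Adj a b)) (mx fun a b => decide (Gᶜ.Adj a b))) :
    Om G w ∧ Om Gᶜ a ∧ Ci G := by
  simp only [chk, Bool.and_eq_true, List.all_eq_true, beq_iff_eq, List.any_eq_true,
    List.contains_iff_mem] at h
  refine ⟨fun C hC => ?_, fun C hC => ?_, fun C S hC hS => ?_⟩
  · obtain ⟨D, h1, -, e⟩ := mem_mx _ hC; rw [e, h.1.1 D h1]
  · obtain ⟨D, h1, -, e⟩ := mem_mx _ hC; rw [e, h.1.2 D h1]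
  · obtain ⟨D, h1, rfl, -⟩ := mem_mx _ hC
    obtain ⟨E, h2, rfl, -⟩ := mem_mx _ hS
    obtain ⟨x, h3, h4⟩ := h.2 D h1 E h2
    exact ⟨x, by simp [h3, h4]⟩

lemma bR : Om R 3 ∧ Om Rᶜ 3 ∧ Ci R := base R 3 3 (by decide +kernel)

lemma bY : Om Y 3 ∧ Om Yᶜ 5 ∧ Ci Y := base Y 5 3 (by decide +kernel)

noncomputable def cn (G : SimpleGraph A) (u v : A) : ℕ := (G.neighborSet u ∩ G.neighborSet v).ncard

lemma cn1 [Finite A] [Finite B] {G : SimpleGraph A} {H : SimpleGraph B} {e : ℕ}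
    (h' : ∀ v, (H.neighborSet v).ncard = e) {a c : A} (h : G.Adj a c) (b d : B) :
    cn (lex G H) (a, b) (c, d) = cn G a c * Nat.card B + e + e := by
  have := h.ne
  have := h.symm
  rw [cn, show (lex G H).neighborSet (a, b) ∩ (lex G H).neighborSet (c, d) =
    (G.neighborSet a ∩ G.neighborSet c) ×ˢ Set.univ ∪ {a} ×ˢ H.neighborSet b ∪
      {c} ×ˢ H.neighborSet d by ext ⟨x, y⟩; simp [lex]; grind,
    Set.ncard_union_eq (by simp [Set.disjoint_prod, h.ne]),
    Set.ncard_union_eq (by simp [Set.disjoint_prod])]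
  simp [Set.ncard_prod, h', cn]

lemma cn2 [Finite A] [Finite B] {G : SimpleGraph A} {H : SimpleGraph B} {e : ℕ}
    (h : ∀ v, (G.neighborSet v).ncard = e) (a : A) (b d : B) :
    cn (lex G H) (a, b) (a, d) = e * Nat.card B + cn H b d := by
  rw [cn, show (lex G H).neighborSet (a, b) ∩ (lex G H).neighborSet (a, d) =
    G.neighborSet a ×ˢ Set.univ ∪ {a} ×ˢ (H.neighborSet b ∩ H.neighborSet d) by
      ext ⟨x, y⟩; simp [lex]; grind, Set.ncard_union_eq (by simp [Set.disjoint_prod])]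
  simp [Set.ncard_prod, h, cn]

theorem result : ∃ G : SimpleGraph (Fin 9 × Fin 15 × Fin 9),
    (∃ d, ∀ v, (G.neighborSet v).ncard = d) ∧ CIS G ∧ G.Connected ∧ Gᶜ.Connected ∧
    WellCovered G ∧ WellCovered Gᶜ ∧ Irred G ∧ Irred Gᶜ ∧ ¬ ∀ u v, ∃ f : G ≃g G, f u = v := by
  have nb : ∀ {n : ℕ} (G : SimpleGraph (Fin n)) [DecidableRel G.Adj] v,
      (G.neighborSet v).ncard = (Finset.univ.filter (G.Adj v)).card := fun G _ v => by
    rw [← Set.ncard_coe_finset]; congr 1; ext; simp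
  have r4 : ∀ v, (R.neighborSet v).ncard = 4 := by simp only [nb]; decide +kernel
  have y4 : ∀ v, (Y.neighborSet v).ncard = 4 := by simp only [nb]; decide +kernel
  have i1 : Ir R := by simp only [Ir, Irred, Set.ext_iff, mem_neighborSet]; decide +kernel
  have i2 : Ir Rᶜ := by simp only [Ir, Irred, Set.ext_iff, mem_neighborSet]; decide +kernel
  have e : ∀ G : SimpleGraph (Fin 9 × Fin 15 × Fin 9), G.IsIndepSet = Gᶜ.IsClique :=
    fun G => funext fun s => by simp
  refine ⟨lex R (lex Y R), ⟨_, reg r4 (reg y4 r4)⟩, ?_, conn _ (by decide +kernel), ?_, ?_, ?_,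
    (ir_lex _ (ir_lex _ i1)).1, ?_, fun h => ?_⟩
  · rw [CIS, e]; exact ci_lex bR.2.2 (ci_lex bY.2.2 bR.2.2)
  · rw [lex_compl]; exact conn _ (by decide +kernel)
  · rw [WellCovered, e, lex_compl, lex_compl]; exact ⟨_, om_lex bR.2.1 (om_lex bY.2.1 bR.2.1)⟩
  · rw [WellCovered, e, compl_compl]; exact ⟨_, om_lex bR.1 (om_lex bY.1 bR.1)⟩
  · rw [lex_compl, lex_compl]; exact (ir_lex _ (ir_lex _ i2)).1
  · obtain ⟨f, hf⟩ := h (0, 9, 0) (0, 0, 0)
    have cb : ∀ {n : ℕ} (G : SimpleGraph (Fin n)) [DecidableRel G.Adj] u v, cn G u v =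
        (Finset.univ.filter fun w => G.Adj u w ∧ G.Adj v w).card := fun G _ u v => by
      rw [cn, ← Set.ncard_coe_finset]; congr 1; ext; simp
    have c1 : ∀ a b, R.Adj a b → cn R a b = 1 := by simp only [cb]; decide +kernel
    have c2 : ∀ b, Y.Adj 0 b → cn Y 0 b = 1 := by simp only [cb]; decide +kernel
    have c3 : cn Y 9 10 = 2 := by simp only [cb]; decide +kernel
    have c4 : cn (lex R (lex Y R)) (f (0, 9, 0)) (f (0, 10, 0)) = 566 := by
      rw [cn, show (lex R (lex Y R)).neighborSet (f (0, 9, 0)) ∩ _ = f '' (_ ∩ _) from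
        Set.ext (f.surjective.forall.2 fun x => by
          rw [f.injective.mem_set_image]; exact and_congr f.map_rel_iff f.map_rel_iff),
        Set.ncard_image_of_injective _ f.injective]
      refine (cn2 r4 _ _ _).trans ?_
      rw [cn1 r4 (by decide), c3]
      simp
    have c5 : (lex R (lex Y R)).Adj (f (0, 9, 0)) (f (0, 10, 0)) := f.map_rel_iff.2 (by decide)
    rw [hf] at c4 c5
    generalize f (0, 10, 0) = u at c4 c5
    obtain ⟨a, b, c⟩ := u
    rcases c5 with h | ⟨rfl, h | ⟨rfl, h⟩⟩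
    · rw [cn1 (reg y4 r4) h, c1 _ _ h] at c4; simp at c4
    · rw [cn2 r4, cn1 r4 h, c2 _ h] at c4; simp at c4
    · rw [cn2 r4, cn2 y4, c1 _ _ h] at c4; simp at c4

end Pool.Agent.Results.MP_509871_co.NotTransitive
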